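import Mathlib

/-!
# Q2 of MP_6fec45_co is false

There are sets `A` in `F_2^n` with an additive complement of size `K` such that `A + A`
contains no coset of codimension smaller than `sqrt (K / 2)`.  In particular no bound of the
shape `C * log (2 K)` is possible.

The example: `n = 2^m`, the rows of the Sylvester-Hadamard matrix and their complements as
additive complement, and for `A` the set of vectors with at least `sqrt n` more zeros than ones.
-/

set_option autoImplicit false

open scoped Pointwise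
open Finset

namespace Pool.Agent.Results.MP_6fec45_co.LogBoundFalse

/-- The sign `(-1)^a` of a bit. -/
private def sgn (a : ZMod 2) : ℤ := if a = 0 then 1 else -1

private lemma sgn_add (a b : ZMod 2) : sgn (a + b) = sgn a * sgn b := by
  revert a b; decide

private lemma sgn_add_ge (a b : ZMod 2) : sgn a + sgn b - 1 ≤ sgn (a + b) := by
  revert a b; decide

private lemma sgn_sq (a : ZMod 2) : sgn a ^ 2 = 1 := by
  revert a; decide

/-- Existence of Sylvester-Hadamard matrices, in the form of the Parseval identity. -/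
private lemma hadamard_aux (m : ℕ) : ∃ (ι : Type) (_ : Fintype ι), Fintype.card ι = 2 ^ m ∧
    ∃ v : ι → ι → ZMod 2, ∀ x : ι → ℤ,
      ∑ i, (∑ j, sgn (v i j) * x j) ^ 2 = 2 ^ m * ∑ j, x j ^ 2 := by
  induction m with
  | zero =>
    refine ⟨Unit, inferInstance, by simp, fun _ _ => 0, fun x => ?_⟩
    simp [sgn]
  | succ m ih =>
    obtain ⟨ι, hι, hc, v, hv⟩ := ih
    refine ⟨ι ⊕ ι, inferInstance, by rw [Fintype.card_sum, hc]; ring, fun i j =>
      match i, j with
      | Sum.inl i, Sum.inl j => v i j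
      | Sum.inl i, Sum.inr j => v i j
      | Sum.inr i, Sum.inl j => v i j
      | Sum.inr i, Sum.inr j => v i j + 1, fun x => ?_⟩
    have h1 := hv (fun j => x (Sum.inl j))
    have h2 := hv (fun j => x (Sum.inr j))
    have hs : sgn 1 = -1 := by decide
    simp only [Fintype.sum_sum_type, sgn_add, hs, mul_neg, mul_one, neg_mul,
      Finset.sum_neg_distrib]
    rw [← Finset.sum_add_distrib]
    have h3 : ∀ i : ι, (∑ j, sgn (v i j) * x (Sum.inl j) + ∑ j, sgn (v i j) * x (Sum.inr j)) ^ 2
        + (∑ j, sgn (v i j) * x (Sum.inl j) + -∑ j, sgn (v i j) * x (Sum.inr j)) ^ 2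
        = 2 * (∑ j, sgn (v i j) * x (Sum.inl j)) ^ 2
          + 2 * (∑ j, sgn (v i j) * x (Sum.inr j)) ^ 2 := fun i => by ring
    rw [Finset.sum_congr rfl (fun i _ => h3 i), Finset.sum_add_distrib, ← Finset.mul_sum,
      ← Finset.mul_sum, h1, h2]
    ring

private lemma hadamard (m : ℕ) : ∃ v : Fin (2 ^ m) → Fin (2 ^ m) → ZMod 2,
    ∀ x : Fin (2 ^ m) → ℤ,
      ∑ i, (∑ j, sgn (v i j) * x j) ^ 2 = 2 ^ m * ∑ j, x j ^ 2 := by
  obtain ⟨ι, hι, hc, v, hv⟩ := hadamard_aux m
  let e : Fin (2 ^ m) ≃ ι := (Fintype.equivFinOfCardEq hc).symm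
  refine ⟨fun i j => v (e i) (e j), fun x => ?_⟩
  have h := hv (fun j => x (e.symm j))
  rw [← e.sum_comp, ← e.sum_comp (fun j => x (e.symm j) ^ 2)] at h
  simp only [Equiv.symm_apply_apply] at h
  rw [← h]
  refine Finset.sum_congr rfl (fun i _ => ?_)
  rw [← e.sum_comp (fun j => sgn (v (e i) j) * x (e.symm j))]
  simp

/-- `bias a` = number of zeros minus number of ones of `a`. -/
private def bias {n : ℕ} (a : Fin n → ZMod 2) : ℤ := ∑ j, sgn (a j)

private lemma bias_add_ge {n : ℕ} (a b : Fin n → ZMod 2) :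
    bias a + bias b - n ≤ bias (a + b) := by
  unfold bias
  have h : ∑ j : Fin n, (sgn (a j) + sgn (b j) - 1) ≤ ∑ j, sgn ((a + b) j) :=
    Finset.sum_le_sum (fun j _ => sgn_add_ge (a j) (b j))
  simpa [Finset.sum_add_distrib, Finset.sum_sub_distrib] using h

private lemma bias_eq {n : ℕ} (a : Fin n → ZMod 2) :
    bias a = n - 2 * ((Finset.univ.filter (fun j => a j ≠ 0)).card : ℤ) := by
  unfold bias
  have h : ∀ j : Fin n, sgn (a j) = 1 - 2 * (if a j ≠ 0 then 1 else 0) := by
    intro j; unfold sgn; split_ifs <;> simp_all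
  rw [Finset.sum_congr rfl (fun j _ => h j), Finset.sum_sub_distrib, ← Finset.mul_sum,
    Finset.sum_boole]
  simp

/-- Every coset of a subspace of dimension `r` contains a vector of weight at least `r`. -/
private lemma exists_heavy {n : ℕ} (x : Fin n → ZMod 2) (V : Submodule (ZMod 2) (Fin n → ZMod 2)) :
    ∃ v ∈ V, Module.finrank (ZMod 2) V ≤
      (Finset.univ.filter (fun j => (x + v) j ≠ 0)).card := by
  classical
  -- choose `v` maximising the weight
  obtain ⟨v, -, hv⟩ := Finset.exists_max_image (Finset.univ : Finset V)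
    (fun v : V => (Finset.univ.filter (fun j => (x + (v : Fin n → ZMod 2)) j ≠ 0)).card)
    ⟨0, Finset.mem_univ _⟩
  refine ⟨v, v.2, ?_⟩
  by_contra hlt
  push Not at hlt
  set I := Finset.univ.filter (fun j => (x + (v : Fin n → ZMod 2)) j ≠ 0) with hI
  -- restriction of `V` to the coordinates in `I`
  let f : V →ₗ[ZMod 2] (I → ZMod 2) :=
    (LinearMap.pi (fun i : I => LinearMap.proj (i : Fin n))).comp V.subtype
  have hker : LinearMap.ker f ≠ ⊥ := by
    apply LinearMap.ker_ne_bot_of_finrank_lt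
    simpa using hlt
  obtain ⟨w, hw, hw0⟩ := (Submodule.ne_bot_iff _).1 hker
  have hwI : ∀ j ∈ I, (w : Fin n → ZMod 2) j = 0 := by
    intro j hj
    have := congrFun (LinearMap.mem_ker.1 hw) ⟨j, hj⟩
    simpa [f] using this
  obtain ⟨k, hk⟩ : ∃ k, (w : Fin n → ZMod 2) k ≠ 0 := by
    by_contra hcon
    push Not at hcon
    exact hw0 (Subtype.ext (funext hcon))
  have hkI : k ∉ I := fun h => hk (hwI k h)
  have hsub : insert k I ⊆
      Finset.univ.filter (fun j => (x + ((v + w : V) : Fin n → ZMod 2)) j ≠ 0) := by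
    intro j hj
    rw [Finset.mem_insert] at hj
    rw [Finset.mem_filter]
    refine ⟨Finset.mem_univ _, ?_⟩
    rcases hj with rfl | hj
    · have h0 : (x + (v : Fin n → ZMod 2)) j = 0 := by
        by_contra hne
        exact hkI (by rw [hI, Finset.mem_filter]; exact ⟨Finset.mem_univ _, hne⟩)
      have : (x + ((v + w : V) : Fin n → ZMod 2)) j
          = (x + (v : Fin n → ZMod 2)) j + (w : Fin n → ZMod 2) j := by
        simp [add_assoc]
      rw [this, h0, zero_add]
      exact hk
    · have h1 : (x + (v : Fin n → ZMod 2)) j ≠ 0 := by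
        rw [hI, Finset.mem_filter] at hj; exact hj.2
      have : (x + ((v + w : V) : Fin n → ZMod 2)) j
          = (x + (v : Fin n → ZMod 2)) j + (w : Fin n → ZMod 2) j := by
        simp [add_assoc]
      rw [this, hwI j hj, add_zero]
      exact h1
  have hcard := Finset.card_le_card hsub
  rw [Finset.card_insert_of_notMem hkI] at hcard
  have := hv (v + w) (Finset.mem_univ _)
  omega

private lemma growth (C : ℝ) : ∃ k : ℕ, C * Real.log (4 * (2 : ℝ) ^ (2 * k)) < 2 ^ k := by
  have ht := tendsto_pow_const_div_const_pow_of_one_lt 1 (r := (2 : ℝ)) (by norm_num)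
  have hev := ht.eventually (gt_mem_nhds (show (0 : ℝ) < 1 / (4 * (|C| + 1)) by positivity))
  obtain ⟨k, hk1, hk⟩ := ((Filter.eventually_ge_atTop 1).and hev).exists
  refine ⟨k, ?_⟩
  have hk1' : (1 : ℝ) ≤ k := by exact_mod_cast hk1
  have h2k : (0 : ℝ) < 2 ^ k := by positivity
  rw [pow_one, div_lt_div_iff₀ h2k (by positivity)] at hk
  have hlog : Real.log (4 * (2 : ℝ) ^ (2 * k)) = (2 * k + 2) * Real.log 2 := by
    rw [show (4 : ℝ) * 2 ^ (2 * k) = 2 ^ (2 * k + 2) by ring, Real.log_pow]
    push_cast; ring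
  have hl2 : Real.log 2 ≤ 1 := by
    have := Real.log_two_lt_d9; linarith
  have hl0 : 0 ≤ Real.log 2 := Real.log_nonneg (by norm_num)
  rw [hlog]
  have habs : C ≤ |C| := le_abs_self C
  have h0 : 0 ≤ |C| := abs_nonneg C
  calc C * ((2 * k + 2) * Real.log 2) ≤ |C| * ((2 * k + 2) * Real.log 2) := by
        apply mul_le_mul_of_nonneg_right habs; positivity
    _ ≤ |C| * ((2 * k + 2) * 1) := by
        apply mul_le_mul_of_nonneg_left _ h0
        apply mul_le_mul_of_nonneg_left hl2; positivity
    _ ≤ |C| * (4 * k) := by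
        apply mul_le_mul_of_nonneg_left _ h0; linarith
    _ < 2 ^ k := by nlinarith

/-- **Q2 has a negative answer.**  For every real `C` there are `n, K ≥ 1` and a set
`A ⊆ F_2^n` which has an additive complement `S` of size `K` (that is `A + S = F_2^n`), such
that every coset `x + V` of a subspace `V` contained in `A + A` has codimension
`n - dim V` larger than `C * log (2 K)`, and in fact at least `sqrt (K / 2)`. -/
theorem result (C : ℝ) :
    ∃ (n K : ℕ) (A : Set (Fin n → ZMod 2)), 1 ≤ n ∧ 1 ≤ K ∧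
      (∃ S : Finset (Fin n → ZMod 2), S.card = K ∧ A + (S : Set (Fin n → ZMod 2)) = Set.univ) ∧
      ∀ (x : Fin n → ZMod 2) (V : Submodule (ZMod 2) (Fin n → ZMod 2)),
        ({x} : Set (Fin n → ZMod 2)) + (V : Set (Fin n → ZMod 2)) ⊆ A + A →
          C * Real.log (2 * K) < (n : ℝ) - Module.finrank (ZMod 2) V ∧
          Real.sqrt (K / 2) ≤ (n : ℝ) - Module.finrank (ZMod 2) V := by
  classical
  -- we may assume `C ≥ 0`
  obtain ⟨k, hk⟩ := growth |C|
  obtain ⟨v, hv⟩ := hadamard (2 * k)
  let n : ℕ := 2 ^ (2 * k)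
  have hn : n = 2 ^ (2 * k) := rfl
  let S : Finset (Fin n → ZMod 2) :=
    (Finset.univ.image v) ∪ (Finset.univ.image (fun i => v i + 1))
  let A : Set (Fin n → ZMod 2) := {a | (2 : ℤ) ^ k ≤ bias a}
  have hScard : S.card ≤ 2 * n := by
    calc S.card ≤ (Finset.univ.image v).card + (Finset.univ.image (fun i => v i + 1)).card :=
          Finset.card_union_le _ _
      _ ≤ n + n := by
          apply add_le_add
          · exact Finset.card_image_le.trans (by simp [n])
          · exact Finset.card_image_le.trans (by simp [n])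
      _ = 2 * n := by ring
  have hnpos : 0 < n := by simp [n]
  have hSpos : 1 ≤ S.card := by
    rw [Nat.one_le_iff_ne_zero, Finset.card_ne_zero]
    exact ⟨v ⟨0, hnpos⟩, by simp [S]⟩
  refine ⟨n, S.card, A, hnpos, hSpos, ⟨S, rfl, ?_⟩, ?_⟩
  · -- additive complement
    rw [Set.eq_univ_iff_forall]
    intro y
    have hP := hv (fun j => sgn (y j))
    simp only [sgn_sq, Finset.sum_const, Finset.card_univ, Fintype.card_fin, nsmul_eq_mul,
      mul_one] at hP
    -- some inner product is large
    have hex : ∃ i, (2 : ℤ) ^ (2 * k) ≤ (∑ j, sgn (v i j) * sgn (y j)) ^ 2 := by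
      by_contra hcon
      push Not at hcon
      have hlt : ∑ i : Fin (2 ^ (2 * k)), (∑ j, sgn (v i j) * sgn (y j)) ^ 2
          < ∑ _i : Fin (2 ^ (2 * k)), (2 : ℤ) ^ (2 * k) :=
        Finset.sum_lt_sum_of_nonempty ⟨⟨0, hnpos⟩, Finset.mem_univ _⟩ (fun i _ => hcon i)
      rw [hP] at hlt
      simp at hlt
    obtain ⟨i, hi⟩ := hex
    have hpow : ((2 : ℤ) ^ k) ^ 2 ≤ (∑ j, sgn (v i j) * sgn (y j)) ^ 2 := by
      rw [← pow_mul, mul_comm k 2]; exact hi
    have habs := abs_le_of_sq_le_sq' (a := (2 : ℤ) ^ k)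
      (b := |∑ j, sgn (v i j) * sgn (y j)|) (by rw [sq_abs]; exact hpow) (abs_nonneg _)
    have h2 : (2 : ℤ) ^ k ≤ |∑ j, sgn (v i j) * sgn (y j)| := habs.2
    have hchar : ∀ a : ZMod 2, a + a = 0 := by decide
    rcases le_abs.1 h2 with h | h
    · refine Set.mem_add.2 ⟨y + v i, ?_, v i, by simp [S], ?_⟩
      · show (2 : ℤ) ^ k ≤ bias (y + v i)
        unfold bias
        calc (2 : ℤ) ^ k ≤ ∑ j, sgn (v i j) * sgn (y j) := h
          _ = ∑ j, sgn ((y + v i) j) := by
              refine Finset.sum_congr rfl (fun j _ => ?_)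
              rw [Pi.add_apply, sgn_add]; ring
      · funext j
        simp only [Pi.add_apply]
        rw [add_assoc, hchar, add_zero]
    · refine Set.mem_add.2 ⟨y + (v i + 1), ?_, v i + 1, by simp [S], ?_⟩
      · show (2 : ℤ) ^ k ≤ bias (y + (v i + 1))
        unfold bias
        calc (2 : ℤ) ^ k ≤ -∑ j, sgn (v i j) * sgn (y j) := h
          _ = ∑ j, sgn ((y + (v i + 1)) j) := by
              rw [← Finset.sum_neg_distrib]
              refine Finset.sum_congr rfl (fun j _ => ?_)
              have h1 : sgn 1 = -1 := by decide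
              simp only [Pi.add_apply, Pi.one_apply]
              rw [sgn_add, sgn_add, h1]; ring
      · funext j
        simp only [Pi.add_apply]
        rw [add_assoc, hchar, add_zero]
  · -- codimension of cosets in `A + A`
    intro x V hsub
    obtain ⟨w, hwV, hw⟩ := exists_heavy x V
    have hmem : x + w ∈ A + A := hsub (Set.add_mem_add (Set.mem_singleton x) hwV)
    obtain ⟨a, ha, b, hb, hab⟩ := Set.mem_add.1 hmem
    have ha' : (2 : ℤ) ^ k ≤ bias a := ha
    have hb' : (2 : ℤ) ^ k ≤ bias b := hb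
    have h1 := bias_add_ge a b
    rw [hab, bias_eq (x + w)] at h1
    have hcod : (2 : ℤ) ^ k ≤ (n : ℤ) - Module.finrank (ZMod 2) V := by
      have hw' : (Module.finrank (ZMod 2) V : ℤ) ≤
        ((Finset.univ.filter (fun j => (x + w) j ≠ 0)).card : ℤ) := by exact_mod_cast hw
      linarith
    have hcodR : (2 : ℝ) ^ k ≤ (n : ℝ) - Module.finrank (ZMod 2) V := by
      exact_mod_cast hcod
    have hSR : (S.card : ℝ) ≤ 2 * (2 : ℝ) ^ (2 * k) := by
      have : (S.card : ℝ) ≤ ((2 * n : ℕ) : ℝ) := by exact_mod_cast hScard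
      simpa [hn] using this
    have hSposR : (1 : ℝ) ≤ S.card := by exact_mod_cast hSpos
    constructor
    · have hlogle : Real.log (2 * S.card) ≤ Real.log (4 * (2 : ℝ) ^ (2 * k)) := by
        apply Real.log_le_log (by linarith)
        linarith
      have hlog0 : 0 ≤ Real.log (2 * S.card) := Real.log_nonneg (by linarith)
      calc C * Real.log (2 * S.card) ≤ |C| * Real.log (2 * S.card) :=
            mul_le_mul_of_nonneg_right (le_abs_self C) hlog0
        _ ≤ |C| * Real.log (4 * (2 : ℝ) ^ (2 * k)) :=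
            mul_le_mul_of_nonneg_left hlogle (abs_nonneg C)
        _ < 2 ^ k := hk
        _ ≤ _ := hcodR
    · refine le_trans ?_ hcodR
      rw [Real.sqrt_le_left (by positivity), ← pow_mul, mul_comm k 2]
      linarith

end Pool.Agent.Results.MP_6fec45_co.LogBoundFalse
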